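import Pool.Agent.Helper50.HT.Stmts

/-!
# Sheet HT, row NUM
-/

set_option autoImplicit false

namespace Pool.Agent.Helper30.HT

open Pool.Agent.Helper50.HT

theorem NUM : ST_NUM := by
  intro C C1 κ D hC hC1 hκ hD
  have hκ0 : 0 < κ := by linarith
  have hCC1 : 0 < C * C1 := mul_pos hC hC1
  obtain ⟨Q, hQ⟩ : ∃ Q, Q = 4 * κ * (1 + C + C * C1) := ⟨_, rfl⟩
  have hQ4 : 4 ≤ Q := by
    rw [hQ]; nlinarith [mul_pos hκ0 hC, mul_pos hκ0 hCC1]
  have hQ0 : 0 < Q := by linarith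
  obtain ⟨η, hη⟩ : ∃ η, η = 1 / Q := ⟨_, rfl⟩
  have hη0 : 0 < η := by rw [hη]; positivity
  have hηQ : η * Q = 1 := by rw [hη]; field_simp
  have hη1 : η ≤ 1 := by nlinarith
  -- η * (4 κ (1 + C + C C1)) = 1
  have e1 : η * (4 * κ) ≤ 1 := by
    have : η * (4 * κ) * (1 + C + C * C1) = 1 := by
      have h9 := hηQ
      rw [hQ] at h9
      linarith
    have h2 : 0 < η * (4 * κ) := by positivity
    nlinarith
  have e2 : η * (4 * κ) * C ≤ 1 := by
    have : η * (4 * κ) * (1 + C + C * C1) = 1 := by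
      have h9 := hηQ
      rw [hQ] at h9
      linarith
    have h2 : 0 < η * (4 * κ) := by positivity
    nlinarith [mul_pos h2 hCC1]
  have e3 : η * (4 * κ) * (C * C1) ≤ 1 := by
    have : η * (4 * κ) * (1 + C + C * C1) = 1 := by
      have h9 := hηQ
      rw [hQ] at h9
      linarith
    have h2 : 0 < η * (4 * κ) := by positivity
    nlinarith [mul_pos h2 hC]
  obtain ⟨A, hA⟩ : ∃ A, A = 256 * (C * C1) / D ^ 2 + 320 * C / D := ⟨_, rfl⟩
  have hA0 : 0 < A := by rw [hA]; positivity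
  obtain ⟨c, hc⟩ : ∃ c, c = η ^ 3 / (32 * κ) := ⟨_, rfl⟩
  have hc0 : 0 < c := by rw [hc]; positivity
  obtain ⟨R, hR⟩ : ∃ R, R = A / c := ⟨_, rfl⟩
  have hR0 : 0 < R := by rw [hR]; positivity
  have hRc : R * c = A := by rw [hR]; field_simp
  refine ⟨c, 1 + 2 * Q + 32 * Q / D + 4 / D + 2 * κ + R ^ 2, hc0, ?_, ?_⟩
  · have : 0 < 32 * Q / D := by positivity
    have : 0 < 4 / D := by positivity
    have := sq_nonneg R
    linarith
  intro x N hx hN1 hN2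
  have p1 : 0 < 32 * Q / D := by positivity
  have p2 : 0 < 4 / D := by positivity
  have p3 : 0 < R ^ 2 := by positivity
  have hx1 : 1 ≤ x := by linarith
  have hx0 : 0 < x := by linarith
  have hxQ : 2 * Q ≤ x := by linarith
  have hxQD : 32 * Q / D ≤ x := by linarith
  have hxD : 4 / D ≤ x := by linarith
  have hxκ : 2 * κ ≤ x := by linarith
  have hxR : R ^ 2 ≤ x := by linarith
  have hxD' : 4 ≤ x * D := by rwa [div_le_iff₀ hD] at hxD
  have hxQD' : 32 * Q ≤ x * D := by rwa [div_le_iff₀ hD] at hxQD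
  have hηx : 2 ≤ η * x := by
    have := mul_le_mul_of_nonneg_left hxQ hη0.le
    linarith
  have hηxD : 32 ≤ η * x * D := by
    have := mul_le_mul_of_nonneg_left hxQD' hη0.le
    linarith
  obtain ⟨K, hK⟩ : ∃ K, K = ⌊η * x⌋₊ := ⟨_, rfl⟩
  obtain ⟨L, hL⟩ : ∃ L, L = ⌈x⌉₊ := ⟨_, rfl⟩
  have K1 : (K : ℝ) ≤ η * x := by rw [hK]; exact Nat.floor_le (by positivity)
  have K2 : η * x / 2 ≤ K := by
    have := Nat.lt_floor_add_one (η * x)
    rw [← hK] at this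
    linarith
  have L1 : x ≤ L := by rw [hL]; exact Nat.le_ceil x
  have L2 : (L : ℝ) ≤ 2 * x := by
    have := Nat.ceil_lt_add_one hx0.le
    rw [← hL] at this
    linarith
  have K0 : (1 : ℝ) ≤ K := by linarith
  have L0 : (1 : ℝ) ≤ L := by linarith
  have Kx : (K : ℝ) ≤ x := by
    have := mul_le_mul_of_nonneg_right hη1 hx0.le
    linarith
  have hxx : x ≤ x ^ 3 := by
    have h8 : (1 : ℝ) ≤ x ^ 2 := one_le_pow₀ hx1
    have := mul_le_mul_of_nonneg_left h8 hx0.le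
    linarith [this, (by ring : x * x ^ 2 = x ^ 3)]
  obtain ⟨y, hy⟩ : ∃ y, y = Real.sqrt x := ⟨_, rfl⟩
  have hy2 : y ^ 2 = x := by rw [hy]; exact Real.sq_sqrt hx0.le
  have hy0 : 0 ≤ y := by rw [hy]; exact Real.sqrt_nonneg _
  have hy1 : 1 ≤ y := by rw [hy]; exact Real.one_le_sqrt.2 hx1
  have hyR : R ≤ y := by rw [hy]; exact Real.le_sqrt_of_sq_le hxR
  have hLs : Real.sqrt L ≤ 2 * y := by
    rw [Real.sqrt_le_left (by positivity)]
    have : (2 * y) ^ 2 = 4 * x := by rw [mul_pow, hy2]; norm_num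
    linarith
  have hLs0 : 0 ≤ Real.sqrt L := Real.sqrt_nonneg _
  have hNn : ((N / 2 : ℕ) : ℝ) ≤ x ^ 3 := by
    have : ((N / 2 : ℕ) : ℝ) ≤ (N : ℝ) / 2 := by
      have := @Nat.cast_div_le ℝ _ _ _ N 2
      simpa using this
    have h0 : (0 : ℝ) ≤ N := Nat.cast_nonneg _
    linarith
  have hNlow : x ^ 3 / (4 * κ) ≤ ((N / 2 : ℕ) : ℝ) := by
    have h1 : (N : ℝ) ≤ 2 * ((N / 2 : ℕ) : ℝ) + 1 := by
      have : N ≤ 2 * (N / 2) + 1 := by omega
      exact_mod_cast this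
    have h2 : 2 ≤ x ^ 3 / κ := by
      rw [le_div_iff₀ hκ0]; linarith
    have h3 : x ^ 3 / (4 * κ) = x ^ 3 / κ / 4 := by field_simp
    rw [h3]; linarith
  have hη3 : η ^ 3 ≤ η := by
    have := pow_le_pow_of_le_one hη0.le hη1 (by norm_num : 1 ≤ 3)
    rwa [pow_one] at this
  have hη2 : η ^ 2 ≤ η := by
    have := pow_le_pow_of_le_one hη0.le hη1 (by norm_num : 1 ≤ 2)
    rwa [pow_one] at this
  have hKcub : (K : ℝ) ^ 3 ≤ η ^ 3 * x ^ 3 := by
    have := pow_le_pow_left₀ (by positivity : (0 : ℝ) ≤ K) K1 3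
    rwa [mul_pow] at this
  have hx3 : 0 < x ^ 3 := by positivity
  have hη4 : η ≤ 1 / (4 * κ) := by
    rw [le_div_iff₀ (by positivity)]; exact e1
  refine ⟨K, L, 1 / (x * K), D / (8 * L), by positivity, ?_, by exact_mod_cast K0,
    by exact_mod_cast L0, ?_, ?_, ?_, ?_, ?_⟩
  · rw [div_le_div_iff₀ (by positivity) (by positivity)]
    have h7 : 16 ≤ D * K := by
      have := mul_le_mul_of_nonneg_left K2 hD.le
      linarith
    have h8 := mul_le_mul_of_nonneg_left h7 hx0.le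
    linarith
  · have : ((K ^ 3 : ℕ) : ℝ) ≤ ((N / 2 : ℕ) : ℝ) := by
      push_cast
      refine hKcub.trans (le_trans ?_ (by simpa using hNlow))
      rw [div_eq_mul_one_div, mul_comm]
      exact mul_le_mul_of_nonneg_left (hη3.trans hη4) hx3.le
    exact_mod_cast this
  · have : ((N / 2 : ℕ) : ℝ) ≤ ((K ^ 3 + L ^ 3 : ℕ) : ℝ) := by
      have h1 : x ^ 3 ≤ (L : ℝ) ^ 3 := pow_le_pow_left₀ hx0.le L1 3
      have h2 : (0 : ℝ) ≤ (K : ℝ) ^ 3 := by positivity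
      have h3 := hNn
      push_cast
      push_cast at h3
      linarith
    exact_mod_cast this
  · rw [div_le_iff₀ (by positivity)]
    have := mul_le_mul_of_nonneg_left L0 hD.le
    linarith
  · have h1 : 2 * (1 / (x * K) * K) = 2 / x := by
      have : (K : ℝ) ≠ 0 := by positivity
      field_simp
    have h2 : 2 * (D / (8 * L) * L) = D / 4 := by
      have : (L : ℝ) ≠ 0 := by positivity
      field_simp; ring
    have h3 : 2 / x ≤ D / 2 := by
      rw [div_le_div_iff₀ hx0 (by norm_num)]; linarith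
    rw [h1, h2]; linarith
  · have g1 : (K : ℝ) ^ 3 / (1 / (x * K)) ^ 2 = (K : ℝ) ^ 3 * (K ^ 2 * x ^ 2) := by
      field_simp
    have g2 : (K : ℝ) ^ 2 / (1 / (x * K)) = (K : ℝ) ^ 3 * x := by
      field_simp
    have g3 : (K : ℝ) ^ 5 / (1 / (x * K)) = (K : ℝ) ^ 3 * (K ^ 3 * x) := by
      field_simp
    have g4 : ((N / 2 : ℕ) : ℝ) / (D / (8 * L)) ^ 2 = 64 / D ^ 2 * (((N / 2 : ℕ) : ℝ) * L ^ 2) := by
      field_simp; ring
    have g5 : (K : ℝ) ^ 3 * ((L : ℝ) ^ 2 * Real.sqrt L) / (D / (8 * L)) =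
        8 / D * ((K : ℝ) ^ 3 * (L ^ 3 * Real.sqrt L)) := by
      field_simp
    have g6 : (L : ℝ) ^ 5 / (D / (8 * L)) = 8 / D * L ^ 6 := by
      field_simp
    rw [g1, g2, g3, g4, g5, g6]
    have y13 : x ^ 6 * y = y ^ 13 := by rw [← hy2]; ring
    -- the small terms
    have a1 : 64 / D ^ 2 * (((N / 2 : ℕ) : ℝ) * L ^ 2) ≤ 256 / D ^ 2 * (x ^ 6 * y) := by
      have : ((N / 2 : ℕ) : ℝ) * L ^ 2 ≤ x ^ 3 * (2 * x) ^ 2 :=
        mul_le_mul hNn (pow_le_pow_left₀ (by positivity) L2 2) (by positivity) hx3.le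
      have h2 : x ^ 5 ≤ x ^ 6 * y := by
        have h6 : 1 ≤ x * y := one_le_mul_of_one_le_of_one_le hx1 hy1
        have : x ^ 5 * 1 ≤ x ^ 5 * (x * y) :=
          mul_le_mul_of_nonneg_left h6 (by positivity)
        linarith [this, (by ring : x ^ 5 * (x * y) = x ^ 6 * y)]
      calc 64 / D ^ 2 * (((N / 2 : ℕ) : ℝ) * L ^ 2) ≤ 64 / D ^ 2 * (x ^ 3 * (2 * x) ^ 2) :=
            mul_le_mul_of_nonneg_left this (by positivity)
        _ = 256 / D ^ 2 * x ^ 5 := by ring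
        _ ≤ _ := mul_le_mul_of_nonneg_left h2 (by positivity)
    have a2 : 8 / D * ((K : ℝ) ^ 3 * (L ^ 3 * Real.sqrt L)) ≤ 128 / D * (x ^ 6 * y) := by
      have : (K : ℝ) ^ 3 * (L ^ 3 * Real.sqrt L) ≤ x ^ 3 * ((2 * x) ^ 3 * (2 * y)) := by
        refine mul_le_mul (pow_le_pow_left₀ (by positivity) Kx 3) ?_ (by positivity) hx3.le
        exact mul_le_mul (pow_le_pow_left₀ (by positivity) L2 3) hLs hLs0 (by positivity)
      calc 8 / D * ((K : ℝ) ^ 3 * (L ^ 3 * Real.sqrt L)) ≤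
            8 / D * (x ^ 3 * ((2 * x) ^ 3 * (2 * y))) :=
            mul_le_mul_of_nonneg_left this (by positivity)
        _ = 128 / D * (x ^ 6 * y) := by ring
    have a3 : 8 / D * (L : ℝ) ^ 6 ≤ 512 / D * (x ^ 6 * y) := by
      have : (L : ℝ) ^ 6 ≤ (2 * x) ^ 6 := pow_le_pow_left₀ (by positivity) L2 6
      have h2 : x ^ 6 ≤ x ^ 6 * y := by
        have := mul_le_mul_of_nonneg_left hy1 (by positivity : (0 : ℝ) ≤ x ^ 6)
        linarith
      calc 8 / D * (L : ℝ) ^ 6 ≤ 8 / D * (2 * x) ^ 6 :=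
            mul_le_mul_of_nonneg_left this (by positivity)
        _ = 512 / D * x ^ 6 := by ring
        _ ≤ _ := mul_le_mul_of_nonneg_left h2 (by positivity)
    -- the main term
    have b1 : C * C1 * ((K : ℝ) ^ 2 * x) ≤ 1 / (4 * κ) * x ^ 3 := by
      have h1 : (K : ℝ) ^ 2 ≤ η * x ^ 2 := by
        have := pow_le_pow_left₀ (by positivity : (0 : ℝ) ≤ K) K1 2
        rw [mul_pow] at this
        have h5 := mul_le_mul_of_nonneg_right hη2 (sq_nonneg x)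
        linarith
      have h2 : C * C1 * η ≤ 1 / (4 * κ) := by
        rw [le_div_iff₀ (by positivity)]; linarith
      calc C * C1 * ((K : ℝ) ^ 2 * x) ≤ C * C1 * (η * x ^ 2 * x) := by
            apply mul_le_mul_of_nonneg_left _ hCC1.le
            exact mul_le_mul_of_nonneg_right h1 hx0.le
        _ = C * C1 * η * x ^ 3 := by ring
        _ ≤ _ := mul_le_mul_of_nonneg_right h2 hx3.le
    have b2 : C * (K : ℝ) ^ 3 ≤ 1 / (4 * κ) * x ^ 3 := by
      have h2 : C * η ≤ 1 / (4 * κ) := by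
        rw [le_div_iff₀ (by positivity)]; linarith
      calc C * (K : ℝ) ^ 3 ≤ C * (η ^ 3 * x ^ 3) := mul_le_mul_of_nonneg_left hKcub hC.le
        _ ≤ C * (η * x ^ 3) := by
            apply mul_le_mul_of_nonneg_left _ hC.le
            exact mul_le_mul_of_nonneg_right hη3 hx3.le
        _ = C * η * x ^ 3 := by ring
        _ ≤ _ := mul_le_mul_of_nonneg_right h2 hx3.le
    have b3 : C1 * C * ((K : ℝ) ^ 2 * x) - N + 1 / 2 * C * (K : ℝ) ^ 3 ≤ -(x ^ 3 / (2 * κ)) := by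
      have h1 : x ^ 3 / κ = 4 * (1 / (4 * κ) * x ^ 3) := by field_simp
      have h2 : x ^ 3 / (2 * κ) = 2 * (1 / (4 * κ) * x ^ 3) := by field_simp; ring
      have h3 : 0 ≤ C * (K : ℝ) ^ 3 := by positivity
      rw [h1] at hN1
      rw [h2]
      have h4 : C1 * C * ((K : ℝ) ^ 2 * x) = C * C1 * ((K : ℝ) ^ 2 * x) := by ring
      have h5 : 1 / 2 * C * (K : ℝ) ^ 3 = 1 / 2 * (C * (K : ℝ) ^ 3) := by ring
      have h6 : 0 < 1 / (4 * κ) * x ^ 3 := by positivity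
      rw [h4, h5]
      linarith
    have b4 : (K : ℝ) ^ 3 * x * (C1 * C * ((K : ℝ) ^ 2 * x) - N + 1 / 2 * C * (K : ℝ) ^ 3) ≤
        -(2 * c * x ^ 7) := by
      have h1 : (η * x / 2) ^ 3 ≤ (K : ℝ) ^ 3 := pow_le_pow_left₀ (by positivity) K2 3
      have h2 : (η * x / 2) ^ 3 * x * (x ^ 3 / (2 * κ)) = 2 * c * x ^ 7 := by
        rw [hc]; field_simp; ring
      have h3 : (η * x / 2) ^ 3 * x * (x ^ 3 / (2 * κ)) ≤ (K : ℝ) ^ 3 * x * (x ^ 3 / (2 * κ)) := by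
        apply mul_le_mul_of_nonneg_right _ (by positivity)
        exact mul_le_mul_of_nonneg_right h1 hx0.le
      have h4 : (K : ℝ) ^ 3 * x * (C1 * C * ((K : ℝ) ^ 2 * x) - N + 1 / 2 * C * (K : ℝ) ^ 3) ≤
          (K : ℝ) ^ 3 * x * (-(x ^ 3 / (2 * κ))) :=
        mul_le_mul_of_nonneg_left b3 (by positivity)
      linarith
    have b5 : A * (x ^ 6 * y) ≤ c * x ^ 7 := by
      have h1 : A ≤ c * y := by
        have := mul_le_mul_of_nonneg_right hyR hc0.le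
        linarith
      have h2 : x ^ 7 = x ^ 6 * y * y := by
        have : x ^ 6 * y * y = x ^ 6 * y ^ 2 := by ring
        rw [this, hy2]; ring
      rw [h2]
      calc A * (x ^ 6 * y) ≤ c * y * (x ^ 6 * y) :=
            mul_le_mul_of_nonneg_right h1 (by positivity)
        _ = c * (x ^ 6 * y * y) := by ring
    have a1' := mul_le_mul_of_nonneg_left a1 hCC1.le
    have a2' := mul_le_mul_of_nonneg_left a2 hC.le
    have a3' := mul_le_mul_of_nonneg_left a3 hC.le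
    have hAe : A * (x ^ 6 * y) = C * C1 * (256 / D ^ 2 * (x ^ 6 * y)) +
        1 / 2 * (C * (128 / D * (x ^ 6 * y))) + 1 / 2 * (C * (512 / D * (x ^ 6 * y))) := by
      rw [hA]; ring
    have tot : C1 * (C * ((K : ℝ) ^ 3 * (K ^ 2 * x ^ 2) +
        64 / D ^ 2 * (((N / 2 : ℕ) : ℝ) * L ^ 2))) - N * ((K : ℝ) ^ 3 * x) +
        1 / 2 * (C * ((K : ℝ) ^ 3 * (K ^ 3 * x) + 8 / D * ((K : ℝ) ^ 3 * (L ^ 3 * Real.sqrt L)) +
          8 / D * (L : ℝ) ^ 6)) =
        (K : ℝ) ^ 3 * x * (C1 * C * ((K : ℝ) ^ 2 * x) - N + 1 / 2 * C * (K : ℝ) ^ 3) +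
        C * C1 * (64 / D ^ 2 * (((N / 2 : ℕ) : ℝ) * L ^ 2)) +
        1 / 2 * (C * (8 / D * ((K : ℝ) ^ 3 * (L ^ 3 * Real.sqrt L)))) +
        1 / 2 * (C * (8 / D * (L : ℝ) ^ 6)) := by ring
    rw [tot]
    linarith

end Pool.Agent.Helper30.HT
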